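import Mathlib

namespace Pool.Agent.H.MP_9329f2_nt

open Finset Set Filter Topology

noncomputable def sig (r : ℝ) (n : ℕ) : ℝ := ∑ d ∈ n.divisors, (d : ℝ) ^ (-r)

def V (r : ℝ) (c : ℕ) : Set ℝ :=
  {y | ∃ n, 0 < n ∧ (∀ q : ℕ, q.Prime → q ∣ n → c ≤ q) ∧ sig r n = y}

noncomputable def f (x : ℝ) (e : ℕ) : ℝ := ∑ j ∈ range (e + 1), x ^ j

theorem f_zero (x : ℝ) : f x 0 = 1 := by simp [f]

theorem f_succ (x : ℝ) (e : ℕ) : f x (e + 1) = f x e + x ^ (e + 1) := by
  simp [f, sum_range_succ _ (e + 1)]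

theorem f_succ' (x : ℝ) (e : ℕ) : f x (e + 1) = 1 + x * f x e := by
  rw [f, sum_range_succ', f, mul_sum]; simp [pow_succ', add_comm]

theorem one_le_f {x : ℝ} (hx : 0 ≤ x) (e : ℕ) : 1 ≤ f x e := by
  induction e with
  | zero => simp [f]
  | succ e ih => rw [f_succ]; linarith [pow_nonneg hx (e + 1)]

theorem sig_mul (r : ℝ) {m n : ℕ} (h : m.Coprime n) : sig r (m * n) = sig r m * sig r n := by
  unfold sig
  rw [Nat.divisors_mul, Finset.mul_def, sum_image h.mul_injOn_divisors, sum_product, sum_mul_sum]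
  refine sum_congr rfl fun a _ => sum_congr rfl fun b _ => ?_
  push_cast
  exact Real.mul_rpow (by positivity) (by positivity)

theorem sig_pow (r : ℝ) {p : ℕ} (h : p.Prime) (e : ℕ) : sig r (p ^ e) = f ((p : ℝ) ^ (-r)) e := by
  rw [sig, Nat.sum_divisors_prime_pow h, f]
  refine sum_congr rfl fun j _ => ?_
  push_cast
  rw [← Real.rpow_natCast, ← Real.rpow_mul (by positivity), mul_comm,
    Real.rpow_mul (by positivity), Real.rpow_natCast]

theorem V_np (r : ℝ) {c : ℕ} (h : ¬ c.Prime) : V r c = V r (c + 1) := by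
  ext y
  constructor
  · rintro ⟨n, h0, h1, h2⟩
    refine ⟨n, h0, fun q hq hd => ?_, h2⟩
    have := h1 q hq hd
    have : q ≠ c := by rintro rfl; exact h hq
    omega
  · rintro ⟨n, h0, h1, h2⟩
    exact ⟨n, h0, fun q hq hd => by have := h1 q hq hd; omega, h2⟩

theorem V_mul (r : ℝ) {c : ℕ} (h : c.Prime) (e : ℕ) {y : ℝ} (hy : y ∈ V r (c + 1)) :
    f ((c : ℝ) ^ (-r)) e * y ∈ V r c := by
  obtain ⟨n, h0, h1, rfl⟩ := hy
  have hc : ¬ c ∣ n := fun hd => by have := h1 c h hd; omega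
  refine ⟨c ^ e * n, by have := h.pos; positivity, fun q hq hd => ?_, ?_⟩
  · rcases (hq.dvd_mul).1 hd with h2 | h2
    · exact ((Nat.prime_dvd_prime_iff_eq hq h).1 (hq.dvd_of_dvd_pow h2)).ge
    · have := h1 q hq h2; omega
  · rw [sig_mul r (((Nat.Prime.coprime_iff_not_dvd h).2 hc).pow_left e), sig_pow r h]

theorem V_dec (r : ℝ) {c : ℕ} (h : c.Prime) {y : ℝ} (hy : y ∈ V r c) :
    ∃ e, ∃ z ∈ V r (c + 1), y = f ((c : ℝ) ^ (-r)) e * z := by
  obtain ⟨n, h0, h1, rfl⟩ := hy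
  obtain ⟨e, m, hm, rfl⟩ := Nat.exists_eq_pow_mul_and_not_dvd h0.ne' c h.ne_one
  refine ⟨e, _, ⟨m, Nat.pos_of_mul_pos_left h0, fun q hq hd => ?_, rfl⟩, ?_⟩
  · have := h1 q hq (hd.mul_left _)
    have : q ≠ c := by rintro rfl; exact hm hd
    omega
  · rw [sig_mul r (((Nat.Prime.coprime_iff_not_dvd h).2 hm).pow_left e), sig_pow r h]

theorem one_mem (r : ℝ) (c : ℕ) : 1 ∈ V r c :=
  ⟨1, one_pos, fun q hq hd => absurd (Nat.dvd_one.1 hd) hq.ne_one, by simp [sig]⟩

theorem V_ge (r : ℝ) {c : ℕ} {y : ℝ} (hy : y ∈ V r c) : 1 ≤ y := by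
  obtain ⟨n, h0, -, rfl⟩ := hy
  have := single_le_sum (f := fun d : ℕ => (d : ℝ) ^ (-r)) (s := n.divisors)
    (fun d _ => by positivity) (Nat.one_mem_divisors.2 h0.ne')
  simpa [sig] using this

theorem tele (c N : ℕ) (hc : 1 ≤ c) :
    ∑ d ∈ Finset.Ico (c + 1) (c + 1 + N), 1 / (d : ℝ) ^ 4 ≤ 1 / (c : ℝ) ^ 3 - 1 / ((c + N : ℕ) : ℝ) ^ 3 := by
  induction N with
  | zero => simp
  | succ N ih =>
    rw [← add_assoc, sum_Ico_succ_top (by omega)]
    have h1 : (1 : ℝ) ≤ c := by exact_mod_cast hc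
    have h0 : (0 : ℝ) ≤ N := by positivity
    push_cast at ih ⊢
    set t : ℝ := c + N with ht
    have t1 : 1 ≤ t := by linarith
    have e1 : (c : ℝ) + 1 + N = t + 1 := by rw [ht]; ring
    have e2 : (c : ℝ) + (N + 1) = t + 1 := by rw [ht]; ring
    rw [e1, e2]
    have : 1 / (t + 1) ^ 4 ≤ 1 / t ^ 3 - 1 / (t + 1) ^ 3 := by
      rw [div_sub_div _ _ (by positivity) (by positivity), div_le_div_iff₀ (by positivity)
        (by positivity)]
      have : 0 ≤ (t + 1) ^ 3 * (2 * t ^ 3 + 6 * t ^ 2 + 4 * t + 1) := by positivity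
      nlinarith
    linarith

theorem V_le {r : ℝ} (hr : 4 ≤ r) {c : ℕ} (hc : 1 ≤ c) {y : ℝ} (hy : y ∈ V r (c + 1)) :
    y ≤ 1 + 1 / (c : ℝ) ^ 3 := by
  obtain ⟨n, h0, h1, rfl⟩ := hy
  have sub : n.divisors ⊆ insert 1 (Finset.Ico (c + 1) (c + 1 + n)) := by
    intro d hd
    have hd' := Nat.dvd_of_mem_divisors hd
    by_cases h : d = 1
    · simp [h]
    · have a1 := h1 _ (Nat.minFac_prime h) ((Nat.minFac_dvd d).trans hd')
      have a2 := Nat.minFac_le (Nat.pos_of_mem_divisors hd)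
      have a3 := Nat.le_of_dvd h0 hd'
      simp only [Finset.mem_insert, Finset.mem_Ico]
      omega
  refine (sum_le_sum_of_subset_of_nonneg sub fun d _ _ => by positivity).trans ?_
  rw [sum_insert (by simp; omega)]
  have T := tele c n hc
  have : ∑ d ∈ Finset.Ico (c + 1) (c + 1 + n), (d : ℝ) ^ (-r)
      ≤ ∑ d ∈ Finset.Ico (c + 1) (c + 1 + n), 1 / (d : ℝ) ^ 4 := by
    refine sum_le_sum fun d hd => ?_
    have : (1 : ℝ) ≤ d := by have := (Finset.mem_Ico.1 hd).1; exact_mod_cast (by omega : 1 ≤ d)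
    rw [one_div, ← Real.rpow_natCast, ← Real.rpow_neg (by linarith)]
    exact Real.rpow_le_rpow_of_exponent_le this (by push_cast; linarith)
  have p : (0 : ℝ) ≤ 1 / ((c + n : ℕ) : ℝ) ^ 3 := by positivity
  simp only [Nat.cast_one, Real.one_rpow]
  linarith

theorem chain {x a b : ℝ} (h0 : 0 ≤ x) (h1 : x ≤ 1) (ha : 0 < a) (E : ℕ)
    (hab : a * (1 + x ^ (E + 1)) ≤ b) (k : ℕ) {t : ℝ} (t1 : f x E * a ≤ t)
    (t2 : t ≤ f x (E + k) * b) : ∃ j, f x j * a ≤ t ∧ t ≤ f x j * b := by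
  induction k with
  | zero => exact ⟨E, t1, t2⟩
  | succ k ih =>
    by_cases h : t ≤ f x (E + k) * b
    · exact ih h
    · refine ⟨E + (k + 1), ?_, t2⟩
      rw [← add_assoc, f_succ]
      have g1 := one_le_f h0 (E + k)
      have g2 : x ^ (E + k + 1) ≤ x ^ (E + 1) := pow_le_pow_of_le_one h0 h1 (by omega)
      have g3 := pow_nonneg h0 (E + 1)
      have g4 := mul_le_mul_of_nonneg_left hab (show 0 ≤ f x (E + k) by linarith)
      nlinarith [mul_le_mul_of_nonneg_left g2 ha.le, mul_nonneg ha.le g3,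
        mul_nonneg (mul_nonneg ha.le g3) (sub_nonneg.2 g1)]

theorem count (n : ℕ) (hn : 10000 ≤ n) :
    243 ≤ #((Finset.Ioc n (3 * n)).filter Nat.Prime) := by
  have h1 := Chebyshev.theta_ge (3 * n)
  have h2 := Chebyshev.theta_le_log4_mul_x (x := n) (by positivity)
  have hn' : (10000 : ℝ) ≤ n := by exact_mod_cast hn
  have e : Chebyshev.theta ((3 * n : ℕ) : ℝ) = Chebyshev.theta n
      + ∑ p ∈ (Finset.Ioc n (3 * n)).filter Nat.Prime, Real.log p := by
    simp only [Chebyshev.theta, Nat.floor_natCast, sum_filter]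
    exact (sum_Ioc_consecutive _ (by omega) (by omega)).symm
  have h3 : ∑ p ∈ (Finset.Ioc n (3 * n)).filter Nat.Prime, Real.log p
      ≤ #((Finset.Ioc n (3 * n)).filter Nat.Prime) • Real.log ((3 * n : ℕ) : ℝ) := by
    refine sum_le_card_nsmul _ _ _ fun p hp => ?_
    have := Finset.mem_Ioc.1 (mem_filter.1 hp).1
    exact Real.log_le_log (by exact_mod_cast (by omega : 0 < p)) (by exact_mod_cast this.2)
  rw [nsmul_eq_mul] at h3
  by_contra hc
  have hc' : (#((Finset.Ioc n (3 * n)).filter Nat.Prime) : ℝ) ≤ 242 := by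
    exact_mod_cast (by omega : #((Finset.Ioc n (3 * n)).filter Nat.Prime) ≤ 242)
  set X : ℝ := ((3 * n : ℕ) : ℝ) with hX
  have hX3 : X = 3 * n := by rw [hX]; push_cast; ring
  set w := √(√X) with hw
  have w2 : w ^ 2 = √X := Real.sq_sqrt (Real.sqrt_nonneg _)
  have w4 : w ^ 4 = X := by
    rw [show w ^ 4 = (w ^ 2) ^ 2 by ring, w2, Real.sq_sqrt (by linarith)]
  have w0 : 0 ≤ w := Real.sqrt_nonneg _
  have w13 : 13 ≤ w := by
    by_contra hh
    have := pow_le_pow_left₀ w0 (not_le.1 hh).le 4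
    norm_num at this; linarith
  have l2 := Real.log_two_gt_d9
  have l2' := Real.log_two_lt_d9
  have l4 : Real.log 4 = 2 * Real.log 2 := by
    rw [show (4 : ℝ) = 2 ^ 2 by norm_num, Real.log_pow]; norm_num
  have lw : Real.log X ≤ w / 4 + 7.1 := by
    have a := Real.log_le_sub_one_of_pos (show 0 < w / 2 ^ 4 by positivity)
    rw [Real.log_div (by positivity) (by positivity), Real.log_pow] at a
    rw [← w4, Real.log_pow]
    push_cast at a ⊢
    linarith
  have l0 : 0 ≤ Real.log X := Real.log_nonneg (by linarith)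
  have lx : Real.log (X + 1) ≤ Real.log X + 1 := by
    have a := Real.log_le_sub_one_of_pos (show 0 < (X + 1) / X by positivity)
    rw [Real.log_div (by positivity) (by positivity), add_div, div_self (by positivity)] at a
    have : 1 / X ≤ 1 := by rw [div_le_one (by positivity)]; linarith
    linarith
  rw [← w2] at h1
  have hn3 : (n : ℝ) = w ^ 4 / 3 := by linarith
  rw [l4] at h2
  have k1 : (2 * w ^ 2 + 243) * Real.log X ≤ (2 * w ^ 2 + 243) * (w / 4 + 7.1) :=
    mul_le_mul_of_nonneg_left lw (by positivity)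
  have k2 := mul_le_mul_of_nonneg_right hc' l0
  have k3 : 0.693 * w ^ 4 ≤ Real.log 2 * w ^ 4 :=
    mul_le_mul_of_nonneg_right (by linarith) (by positivity)
  have k4 : (2 * w ^ 2 + 243) * (w / 4 + 7.1) + 1 < 0.231 * w ^ 4 := by
    obtain ⟨k, hk⟩ : ∃ k, w = 13 + k := ⟨w - 13, by ring⟩
    have k0 : 0 ≤ k := by linarith
    rw [hk]
    nlinarith [pow_nonneg k0 2, pow_nonneg k0 3, pow_nonneg k0 4]
  have k5 : X * Real.log 2 = Real.log 2 * w ^ 4 := by rw [w4]; ring
  have k6 : 2 * Real.log 2 * n = 2 / 3 * (Real.log 2 * w ^ 4) := by rw [hn3]; ring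
  linarith

theorem big {s : ℝ} (hs0 : 0 ≤ s) (hs : s ≤ 13 / 3) (n : ℕ) (hn : 10000 ≤ n) :
    ∃ z ∈ V s (n + 1), 1 + 2 * (n : ℝ) ^ (-s) ≤ z := by
  set Q := (Finset.Ioc n (3 * n)).filter Nat.Prime with hQ
  have hm : ∀ q ∈ Q, q.Prime ∧ n < q ∧ q ≤ 3 * n := fun q hq =>
    ⟨(mem_filter.1 hq).2, Finset.mem_Ioc.1 (mem_filter.1 hq).1⟩
  have p0 : 0 < ∏ q ∈ Q, q := prod_pos fun q hq => (hm q hq).1.pos
  refine ⟨_, ⟨∏ q ∈ Q, q, p0, fun q hq hd => ?_, rfl⟩, ?_⟩
  · obtain ⟨a, ha, h⟩ := (Prime.dvd_finsetProd_iff hq.prime _).1 hd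
    rw [(Nat.prime_dvd_prime_iff_eq hq (hm a ha).1).1 h]
    exact (hm a ha).2.1
  · have sub : insert 1 Q ⊆ (∏ q ∈ Q, q).divisors := by
      intro d hd
      rcases Finset.mem_insert.1 hd with rfl | hd
      · exact Nat.one_mem_divisors.2 p0.ne'
      · exact Nat.mem_divisors.2 ⟨dvd_prod_of_mem _ hd, p0.ne'⟩
    refine le_trans ?_ (sum_le_sum_of_subset_of_nonneg sub fun d _ _ => by positivity)
    rw [sum_insert fun h => (hm 1 h).1.ne_one rfl]
    have n0 : (0 : ℝ) < n := by exact_mod_cast (by omega : 0 < n)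
    have a1 : #Q • ((3 * n : ℝ)) ^ (-s) ≤ ∑ d ∈ Q, (d : ℝ) ^ (-s) := by
      refine card_nsmul_le_sum _ _ _ fun d hd => ?_
      exact Real.rpow_le_rpow_of_nonpos (by exact_mod_cast (hm d hd).1.pos)
        (by exact_mod_cast (hm d hd).2.2) (by linarith)
    have a2 : (243 : ℝ) ≤ #Q := by exact_mod_cast count n hn
    have a3 : (3 : ℝ) ^ s ≤ 121 := by
      refine (Real.rpow_le_rpow_of_exponent_le (by norm_num) hs).trans ?_
      refine le_of_pow_le_pow_left₀ (n := 3) (by norm_num) (by norm_num) ?_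
      rw [← Real.rpow_natCast, ← Real.rpow_mul (by norm_num)]
      norm_num
    have a4 : (121 : ℝ)⁻¹ ≤ 3 ^ (-s) := by
      rw [Real.rpow_neg (by norm_num)]
      exact inv_anti₀ (by positivity) a3
    rw [nsmul_eq_mul, Real.mul_rpow (by norm_num) n0.le] at a1
    have a5 : 0 < (n : ℝ) ^ (-s) := by positivity
    simp only [Nat.cast_one, Real.one_rpow]
    have a6 : 243 * (121⁻¹ * (n : ℝ) ^ (-s)) ≤ #Q * (3 ^ (-s) * (n : ℝ) ^ (-s)) := by gcongr
    linarith

theorem x_le {r : ℝ} (hr : 0 ≤ r) {c : ℕ} (hc : 0 < c) : (c : ℝ) ^ (-r) ≤ 1 :=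
  Real.rpow_le_one_of_one_le_of_nonpos (by exact_mod_cast hc) (by linarith)

theorem greedy {s : ℝ} (hs0 : 0 ≤ s) (hs : s ≤ 13 / 3) (k : ℕ) : ∀ c, 10000 ≤ c →
    ∀ y ∈ V s c, ∀ t, 1 ≤ t → t ≤ y → ∃ v ∈ V s c, ∃ z ∈ V s (c + k), v ≤ t ∧ t ≤ v * z := by
  induction k with
  | zero => exact fun c _ y hy t t1 t2 => ⟨1, one_mem _ _, y, hy, t1, by linarith⟩
  | succ k ih =>
    intro c hc y hy t t1 t2
    rw [show c + (k + 1) = c + 1 + k by ring]
    by_cases hp : c.Prime
    · obtain ⟨e, y1, hy1, rfl⟩ := V_dec s hp hy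
      obtain ⟨z, hz, hz2⟩ := big hs0 hs c hc
      set x := (c : ℝ) ^ (-s) with hx
      have x0 : 0 ≤ x := by positivity
      have m1 : max y1 z ∈ V s (c + 1) := by rcases max_choice y1 z with h | h <;> rwa [h]
      obtain ⟨j, j1, j2⟩ := chain (a := 1) (b := max y1 z) x0 (x_le hs0 hp.pos) one_pos 0
        (by simp only [one_mul, zero_add, pow_one]; linarith [le_max_right y1 z]) e (t := t)
        (by rw [f_zero]; linarith) (by
          rw [zero_add]
          exact t2.trans (mul_le_mul_of_nonneg_left (le_max_left _ _)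
            (by linarith [one_le_f x0 e])))
      have fp : 0 < f x j := by linarith [one_le_f x0 j]
      obtain ⟨v, hv, w, hw, a1, a2⟩ := ih (c + 1) (by omega) _ m1 (t / f x j)
        (by rw [le_div_iff₀ fp]; linarith) (by rw [div_le_iff₀ fp]; linarith)
      refine ⟨_, V_mul s hp j hv, w, hw, ?_, ?_⟩
      · rw [le_div_iff₀ fp] at a1; linarith
      · rw [div_le_iff₀ fp] at a2; linarith
    · rw [V_np s hp] at hy ⊢
      exact ih (c + 1) (by omega) y hy t t1 t2

theorem base {s : ℝ} (hs0 : 4 ≤ s) (hs : s ≤ 13 / 3) (c : ℕ) (hc : 10000 ≤ c) {y : ℝ}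
    (hy : y ∈ V s c) : Icc 1 y ⊆ closure (V s c) := by
  rintro t ⟨t1, t2⟩
  refine Metric.mem_closure_iff.2 fun ε hε => ?_
  obtain ⟨k, hk⟩ := exists_nat_gt (t / ε)
  obtain ⟨v, hv, z, hz, a1, a2⟩ := greedy (by linarith) hs (k + 1) c hc y hy t t1 t2
  refine ⟨v, hv, ?_⟩
  have b := V_le hs0 (c := c + k) (by omega) hz
  have v1 := V_ge s hv
  have N1 : (1 : ℝ) ≤ ((c + k : ℕ) : ℝ) := by exact_mod_cast (by omega : 1 ≤ c + k)
  have N2 : (k : ℝ) ≤ ((c + k : ℕ) : ℝ) := by exact_mod_cast (by omega : k ≤ c + k)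
  set N : ℝ := ((c + k : ℕ) : ℝ)
  have b2 : t * (1 / N ^ 3) < ε := by
    rw [div_lt_iff₀ hε] at hk
    rw [mul_one_div, div_lt_iff₀ (by positivity)]
    have : N ≤ N ^ 3 := le_self_pow₀ N1 (by norm_num)
    nlinarith
  rw [Real.dist_eq, abs_of_nonneg (by linarith)]
  have : 0 ≤ 1 / N ^ 3 := by positivity
  nlinarith [mul_le_mul_of_nonneg_left b (show 0 ≤ v by linarith)]

theorem scale (r : ℝ) {c : ℕ} (h : c.Prime) {a b : ℝ} (hab : Icc a b ⊆ closure (V r (c + 1)))
    (e : ℕ) : Icc (f ((c : ℝ) ^ (-r)) e * a) (f ((c : ℝ) ^ (-r)) e * b) ⊆ closure (V r c) := by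
  rintro t ⟨t1, t2⟩
  have fp : 0 < f ((c : ℝ) ^ (-r)) e := by
    linarith [one_le_f (show 0 ≤ (c : ℝ) ^ (-r) by positivity) e]
  have := map_mem_closure (f := fun z => f ((c : ℝ) ^ (-r)) e * z) (by fun_prop)
    (hab (show t / f ((c : ℝ) ^ (-r)) e ∈ Icc a b from
      ⟨by rw [le_div_iff₀ fp]; linarith, by rw [div_le_iff₀ fp]; linarith⟩))
    (fun z hz => V_mul r h e hz)
  simpa only [mul_div_cancel₀ _ fp.ne'] using this

theorem cc_eq {K : Set ℝ} {y z : K} (h : uIcc (y : ℝ) z ⊆ K) :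
    (y : ConnectedComponents K) = z := by
  rw [ConnectedComponents.coe_eq_coe']
  have : IsPreconnected (Subtype.val ⁻¹' uIcc (y : ℝ) z : Set K) := by
    rw [← IsInducing.subtypeVal.isPreconnected_image, Subtype.image_preimage_coe,
      inter_eq_self_of_subset_right h]
    exact isPreconnected_uIcc
  exact this.subset_connectedComponent right_mem_uIcc left_mem_uIcc

theorem cc_sub {K : Set ℝ} {y z : K} (h : (y : ConnectedComponents K) = z) :
    Icc (y : ℝ) z ⊆ K := by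
  rw [ConnectedComponents.coe_eq_coe'] at h
  have : IsPreconnected (Subtype.val '' connectedComponent z) :=
    IsInducing.subtypeVal.isPreconnected_image.2 isPreconnected_connectedComponent
  exact (this.Icc_subset ⟨y, h, rfl⟩ ⟨z, mem_connectedComponent, rfl⟩).trans
    (Subtype.coe_image_subset _ _)

theorem upper (S : Set ℝ) (n : ℕ) (a : Fin n → ℝ) (ha : ∀ i, a i ∈ closure S)
    (h : ∀ y ∈ S, ∃ i, uIcc y (a i) ⊆ closure S) :
    ENat.card (ConnectedComponents (closure S)) ≤ n := by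
  have su : Function.Surjective fun i => ((⟨a i, ha i⟩ : closure S) :
      ConnectedComponents (closure S)) := by
    intro q
    obtain ⟨y, rfl⟩ := ConnectedComponents.surjective_coe q
    have cl : IsClosed (⋃ i, connectedComponent (⟨a i, ha i⟩ : closure S)) :=
      isClosed_iUnion_of_finite fun i => isClosed_connectedComponent
    have : y ∈ closure (Subtype.val ⁻¹' S : Set (closure S)) := by
      rw [closure_subtype, Subtype.image_preimage_coe,
        inter_eq_self_of_subset_right subset_closure]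
      exact y.2
    obtain ⟨i, hi⟩ := mem_iUnion.1 (closure_minimal (fun z hz => by
      obtain ⟨i, hi⟩ := h z hz
      exact mem_iUnion.2 ⟨i, ConnectedComponents.coe_eq_coe'.1 (cc_eq hi)⟩) cl this)
    exact ⟨i, (ConnectedComponents.coe_eq_coe'.2 hi).symm⟩
  simpa using ENat.card_le_card_of_injective (Function.injective_surjInv su)

theorem lower (S : Set ℝ) (n : ℕ) (M : ℝ) (hM : 0 < M) (a b : Fin n → ℕ)
    (hab : ∀ i j, i < j → b i < a j) (h1 : ∀ i, ∃ v ∈ S, a i / M ≤ v ∧ v ≤ b i / M)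
    (h2 : ∀ y ∈ S, ∃ i, a i / M ≤ y ∧ y ≤ b i / M) :
    (n : ℕ∞) ≤ ENat.card (ConnectedComponents (closure S)) := by
  choose v hv v1 v2 using h1
  have le : ∀ i, a i ≤ b i := fun i => by
    exact_mod_cast (div_le_div_iff_of_pos_right hM).1 ((v1 i).trans (v2 i))
  have key : ∀ i j, i < j → ((⟨v i, subset_closure (hv i)⟩ : closure S) :
      ConnectedComponents (closure S)) ≠ (⟨v j, subset_closure (hv j)⟩ : closure S) := by
    intro i j hij h
    have g : ((b i : ℝ) + 1 / 2) / M ∈ closure S := by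
      refine cc_sub h ⟨(v2 i).trans (by gcongr; linarith), le_trans ?_ (v1 j)⟩
      have : (b i : ℝ) + 1 ≤ a j := by exact_mod_cast hab i j hij
      gcongr; linarith
    have cl : IsClosed (⋃ k, Icc (a k / M) (b k / M)) :=
      isClosed_iUnion_of_finite fun i => isClosed_Icc
    obtain ⟨k, k1, k2⟩ := mem_iUnion.1 (closure_minimal (fun z hz => mem_iUnion.2 (h2 z hz)) cl g)
    rw [div_le_div_iff_of_pos_right hM] at k1 k2
    have c1 : a k < b i + 1 := by exact_mod_cast (show (a k : ℝ) < b i + 1 by linarith)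
    have c2 : b i < b k := by exact_mod_cast (show (b i : ℝ) < b k by linarith)
    rcases lt_trichotomy k i with h | rfl | h
    · have := hab _ _ h; have := le i; omega
    · omega
    · have := hab _ _ h; omega
  have inj : Function.Injective fun i => ((⟨v i, subset_closure (hv i)⟩ : closure S) :
      ConnectedComponents (closure S)) := by
    intro i j h
    rcases lt_trichotomy i j with h1 | h1 | h1
    · exact absurd h (key i j h1)
    · exact h1
    · exact absurd h.symm (key j i h1)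
  simpa using ENat.card_le_card_of_injective inj

end Pool.Agent.H.MP_9329f2_nt
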