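import Pool.Agent.H.MP_9329f2_nt.A

namespace Pool.Agent.H.MP_9329f2_nt

open Set

abbrev L2 := List (ℕ × ℕ)

def fN {α : Type} (n : ℕ) (k : ℕ → α) : α := match n with
  | 0 => k 0
  | m + 1 => k (m + 1)

theorem fN_eq {α : Type} (n : ℕ) (k : ℕ → α) : fN n k = k n := by cases n <;> rfl

def fL {α : Type} : L2 → (L2 → α) → α
  | [], k => k []
  | (a, b) :: L, k => fN a fun a => fN b fun b => fL L fun L => k ((a, b) :: L)

theorem fL_eq {α : Type} (L : L2) (k : L2 → α) : fL L k = k L := by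
  induction L generalizing k with
  | nil => rfl
  | cons I L ih => obtain ⟨a, b⟩ := I; simp [fL, fN_eq, ih]

def ins : ℕ × ℕ → L2 → L2
  | I, [] => [I]
  | I, J :: L => if I.2 < J.1 then I :: J :: L else if J.2 < I.1 then J :: ins I L
      else ins (min I.1 J.1, max I.2 J.2) L

def merge : L2 → L2
  | [] => []
  | I :: L => fL (merge L) fun L => ins I L

theorem ins_spec (P : ℕ × ℕ → Prop)
    (hP : ∀ I J, P I → P J → J.1 ≤ I.2 → I.1 ≤ J.2 → P (min I.1 J.1, max I.2 J.2)) (L : L2) :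
    ∀ I, (∀ J ∈ I :: L, P J) → (∀ J ∈ ins I L, P J) ∧
      ∀ J ∈ I :: L, ∃ J' ∈ ins I L, J'.1 ≤ J.1 ∧ J.2 ≤ J'.2 := by
  induction L with
  | nil => intro I h; simpa [ins] using h
  | cons J L ih =>
    intro I h
    simp only [List.forall_mem_cons] at h
    unfold ins
    split_ifs with h1 h2
    · exact ⟨by simp only [List.forall_mem_cons]; exact h, fun K hK => ⟨K, hK, le_rfl, le_rfl⟩⟩
    · obtain ⟨a, b⟩ := ih I (by simp only [List.forall_mem_cons]; exact ⟨h.1, h.2.2⟩)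
      simp only [List.forall_mem_cons] at b ⊢
      refine ⟨⟨h.2.1, a⟩, ?_, ⟨J, by simp, le_rfl, le_rfl⟩, fun K hK => ?_⟩
      · obtain ⟨J', c, d⟩ := b.1; exact ⟨J', by simp [c], d⟩
      · obtain ⟨J', c, d⟩ := b.2 K hK; exact ⟨J', by simp [c], d⟩
    · obtain ⟨a, b⟩ := ih (min I.1 J.1, max I.2 J.2) (by
        simp only [List.forall_mem_cons]
        exact ⟨hP I J h.1 h.2.1 (by omega) (by omega), h.2.2⟩)
      simp only [List.forall_mem_cons] at b ⊢
      obtain ⟨J', c, d1, d2⟩ := b.1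
      exact ⟨a, ⟨J', c, by omega, by omega⟩, ⟨J', c, by omega, by omega⟩, b.2⟩

theorem merge_spec (P : ℕ × ℕ → Prop)
    (hP : ∀ I J, P I → P J → J.1 ≤ I.2 → I.1 ≤ J.2 → P (min I.1 J.1, max I.2 J.2)) (L : L2)
    (h : ∀ J ∈ L, P J) : (∀ J ∈ merge L, P J) ∧
      ∀ J ∈ L, ∃ J' ∈ merge L, J'.1 ≤ J.1 ∧ J.2 ≤ J'.2 := by
  induction L with
  | nil => simp [merge]
  | cons I L ih =>
    simp only [List.forall_mem_cons] at h
    obtain ⟨a, b⟩ := ih h.2
    obtain ⟨c, d⟩ := ins_spec P hP (merge L) I (by simp only [List.forall_mem_cons]; exact ⟨h.1, a⟩)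
    simp only [merge, fL_eq, List.forall_mem_cons] at d ⊢
    refine ⟨c, d.1, fun J hJ => ?_⟩
    obtain ⟨J', e1, e2, e3⟩ := b J hJ
    obtain ⟨J'', f1, f2, f3⟩ := d.2 J' e1
    exact ⟨J'', f1, by omega, by omega⟩

def M : ℕ := 10 ^ 30

theorem M0 : (0 : ℝ) < M := by norm_num [M]

def isP (c : ℕ) : Bool := 2 ≤ c && (List.range' 2 99).all fun d => c < d * d || c % d != 0

theorem isP_iff (c : ℕ) (hc : c ≤ 10200) : isP c = true ↔ c.Prime := by
  simp only [isP, Bool.and_eq_true, decide_eq_true_eq, List.all_eq_true, List.mem_range'_1,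
    Bool.or_eq_true, bne_iff_ne, Nat.prime_def_le_sqrt, Nat.le_sqrt, Nat.dvd_iff_mod_eq_zero]
  refine and_congr_right fun _ => ⟨fun h m m1 m2 => ?_, fun h d hd => ?_⟩
  · exact (h m ⟨m1, by nlinarith⟩).resolve_left (by omega)
  · by_cases h1 : c < d * d
    · exact Or.inl h1
    · exact Or.inr (h d hd.1 (by omega))

def root (T Q b : ℕ) : ℕ → ℕ → ℕ
  | 0, x => x
  | k + 1, x => fN (x + 2 ^ k) fun y => if y ^ b * Q ≤ T then root T Q b k y else root T Q b k x

def rt (a b c : ℕ) : ℕ := fN (M ^ b) fun T => fN (c ^ a) fun Q => root T Q b 100 0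

theorem enc {a b c x : ℕ} (hb : b ≠ 0) (hc : 0 < c) (h1 : x ^ b * c ^ a ≤ M ^ b)
    (h2 : M ^ b ≤ (x + 1) ^ b * c ^ a) :
    (x : ℝ) / M ≤ (c : ℝ) ^ (-((a : ℝ) / b)) ∧ (c : ℝ) ^ (-((a : ℝ) / b)) ≤ ((x + 1 : ℕ) : ℝ) / M := by
  have c0 : (0 : ℝ) < c := by exact_mod_cast hc
  have e : ((c : ℝ) ^ (-((a : ℝ) / b))) ^ b = 1 / (c : ℝ) ^ a := by
    rw [← Real.rpow_natCast, ← Real.rpow_mul c0.le, neg_mul, div_mul_cancel₀ _ (by exact_mod_cast hb),
      Real.rpow_neg c0.le, Real.rpow_natCast, one_div]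
  have m := M0
  constructor
  · refine le_of_pow_le_pow_left₀ hb (by positivity) ?_
    rw [e, div_pow, div_le_div_iff₀ (by positivity) (by positivity), one_mul]
    exact_mod_cast h1
  · refine le_of_pow_le_pow_left₀ hb (by positivity) ?_
    rw [e, div_pow, div_le_div_iff₀ (by positivity) (by positivity), one_mul]
    exact_mod_cast h2

theorem dn {u l : ℕ} {p q : ℝ} (hu : (u : ℝ) / M ≤ p) (hl : (l : ℝ) / M ≤ q) :
    ((u * l / M : ℕ) : ℝ) / M ≤ q * p := by
  have m := M0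
  have a : ((u * l / M : ℕ) : ℝ) ≤ (u * l : ℕ) / M := Nat.cast_div_le
  calc _ ≤ ((u * l : ℕ) : ℝ) / M / M := by gcongr
    _ = (l / M) * (u / M) := by push_cast; ring
    _ ≤ _ := mul_le_mul hl hu (by positivity) (le_trans (by positivity) hl)

theorem up {u l : ℕ} {p q : ℝ} (p0 : 0 ≤ p) (hu : p ≤ (u : ℝ) / M) (hl : q ≤ (l : ℝ) / M) :
    q * p ≤ ((u * l / M + 1 : ℕ) : ℝ) / M := by
  have m := M0
  have a : ((u * l : ℕ) : ℝ) / M ≤ ((u * l / M + 1 : ℕ) : ℝ) := by
    rw [div_le_iff₀ m]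
    have := Nat.lt_div_mul_add (a := u * l) (b := M) (by norm_num [M])
    exact_mod_cast (by rw [add_mul, one_mul]; exact this.le : u * l ≤ (u * l / M + 1) * M)
  calc _ ≤ (l / M) * (u / M : ℝ) := mul_le_mul hl hu p0 (by positivity)
    _ = ((u * l : ℕ) : ℝ) / M / M := by push_cast; ring
    _ ≤ _ := by gcongr

def flo (x : ℕ) : ℕ → ℕ
  | 0 => M
  | e + 1 => M + flo x e * x / M

def fhi (x : ℕ) : ℕ → ℕ
  | 0 => M
  | e + 1 => M + (fhi x e * x / M + 1)

theorem flo_le {x : ℕ} {y : ℝ} (h : (x : ℝ) / M ≤ y) (e : ℕ) : (flo x e : ℝ) / M ≤ f y e := by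
  induction e with
  | zero => simp [flo, f_zero, M0.ne']
  | succ e ih =>
    rw [flo, f_succ', Nat.cast_add, add_div, div_self M0.ne']
    linarith [dn ih h]

theorem le_fhi {x : ℕ} {y : ℝ} (y0 : 0 ≤ y) (h : y ≤ (x : ℝ) / M) (e : ℕ) :
    f y e ≤ (fhi x e : ℝ) / M := by
  induction e with
  | zero => simp [fhi, f_zero, M0.ne']
  | succ e ih =>
    rw [fhi, f_succ', Nat.cast_add, add_div, div_self M0.ne']
    linarith [up (by linarith [one_le_f y0 e]) ih h]

theorem le_inf {x h : ℕ} {y : ℝ} (y0 : 0 ≤ y) (hx : y ≤ (x : ℝ) / M)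
    (hh : M * M + x * h ≤ h * M) (e : ℕ) : f y e ≤ (h : ℝ) / M := by
  have m := M0
  have k : 1 + (x : ℝ) / M * (h / M) ≤ h / M := by
    have : ((M * M + x * h : ℕ) : ℝ) ≤ (h * M : ℕ) := by exact_mod_cast hh
    push_cast at this
    rw [show 1 + (x : ℝ) / M * (h / M) = (M * M + x * h) / M / M by field_simp]
    gcongr
    rwa [div_le_iff₀ m]
  have p : 0 ≤ (x : ℝ) / M * (h / M) := by positivity
  induction e with
  | zero => rw [f_zero]; linarith
  | succ e ih =>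
    rw [f_succ']
    linarith [mul_le_mul hx ih (by linarith [one_le_f y0 e]) (by positivity)]

theorem f_mono {x : ℝ} (h : 0 ≤ x) : Monotone (f x) :=
  monotone_nat_of_le_succ fun e => by rw [f_succ]; linarith [pow_nonneg h (e + 1)]

def E (p : ℕ) : ℕ := if p = 2 then 4 else if p = 3 then 2 else if p ≤ 19 then 1 else 0

def run (st : ℕ → L2 → Option L2) : ℕ → L2 → Option L2
  | 0, L => some L
  | k + 1, L => fN (k + 2) fun c => match st c L with
    | none => none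
    | some L' => fL L' fun L' => run st k L'

theorem run_spec (st : ℕ → L2 → Option L2) (P : ℕ → L2 → Prop)
    (h : ∀ c L L', c ≤ 10200 → P (c + 1) L → st c L = some L' → P c L') (k : ℕ) :
    ∀ L L', k ≤ 10000 → P (k + 2) L → run st k L = some L' → P 2 L' := by
  induction k with
  | zero => intro L L' _ h1 h2; simp only [run, Option.some.injEq] at h2; rwa [← h2]
  | succ k ih =>
    intro L L' hk h1 h2
    simp only [run, fN_eq, fL_eq] at h2
    split at h2
    · exact absurd h2 (by simp)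
    · rename_i L1 e
      exact ih L1 L' (by omega) (h _ _ _ (by omega) h1 e) h2

def stO (a b c : ℕ) (L : L2) : Option L2 :=
  if isP c then fN (rt a b c) fun x => fN (M * M / (M - (x + 1)) + 1) fun h =>
    if x ^ b * c ^ a ≤ M ^ b ∧ M ^ b ≤ (x + 1) ^ b * c ^ a ∧ M * M + (x + 1) * h ≤ h * M then
      fL ((flo x (E c), h) :: (List.range (E c)).map fun e => (flo x e, fhi (x + 1) e)) fun O =>
      fL (O.flatMap fun o => L.map fun I => (I.1 * o.1 / M, I.2 * o.2 / M + 1)) fun N =>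
        some (merge N)
    else none
  else some L

def InO (r : ℝ) (c : ℕ) (L : L2) : Prop :=
  (∀ I ∈ L, ∃ v ∈ V r c, (I.1 : ℝ) / M ≤ v ∧ v ≤ I.2 / M) ∧
    ∀ y ∈ V r c, ∃ I ∈ L, (I.1 : ℝ) / M ≤ y ∧ y ≤ I.2 / M

theorem stO_spec (a b : ℕ) (hb : b ≠ 0) (c : ℕ) (L L' : L2) (hc : c ≤ 10200)
    (h : InO (a / b) (c + 1) L) (e : stO a b c L = some L') : InO (a / b) c L' := by
  have m := M0
  simp only [stO, fN_eq, fL_eq, isP_iff c hc] at e
  split_ifs at e with hp h1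
  · simp only [Option.some.injEq] at e
    set x := rt a b c
    set H := M * M / (M - (x + 1)) + 1
    obtain ⟨x1, x2⟩ := enc hb hp.pos h1.1 h1.2.1
    set y := (c : ℝ) ^ (-((a : ℝ) / b)) with hy
    have y0 : 0 ≤ y := by positivity
    set O := (flo x (E c), H) :: (List.range (E c)).map fun e => (flo x e, fhi (x + 1) e) with hO
    have o1 : ∀ o ∈ O, ∃ e, (o.1 : ℝ) / M ≤ f y e ∧ f y e ≤ o.2 / M := by
      intro o ho
      rcases List.mem_cons.1 ho with rfl | ho
      · exact ⟨E c, flo_le x1 _, le_inf y0 x2 h1.2.2 _⟩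
      · obtain ⟨e, -, rfl⟩ := List.mem_map.1 ho
        exact ⟨e, flo_le x1 _, le_fhi y0 x2 _⟩
    have o2 : ∀ e, ∃ o ∈ O, (o.1 : ℝ) / M ≤ f y e ∧ f y e ≤ o.2 / M := by
      intro e
      by_cases he : e < E c
      · exact ⟨_, List.mem_cons_of_mem _ (List.mem_map.2 ⟨e, List.mem_range.2 he, rfl⟩),
          flo_le x1 _, le_fhi y0 x2 _⟩
      · exact ⟨_, List.mem_cons_self, (flo_le x1 _).trans (f_mono y0 (by omega)),
          le_inf y0 x2 h1.2.2 _⟩
    obtain ⟨s1, s2⟩ := merge_spec (fun I => ∃ v ∈ V (a / b) c, (I.1 : ℝ) / M ≤ v ∧ v ≤ I.2 / M)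
      (fun I J ⟨v, hv, v1, v2⟩ _ _ _ => ⟨v, hv, le_trans (by gcongr; exact min_le_left _ _) v1,
        v2.trans (by gcongr; exact le_max_left _ _)⟩)
      (O.flatMap fun o => L.map fun I => (I.1 * o.1 / M, I.2 * o.2 / M + 1)) (by
        intro J hJ
        obtain ⟨o, ho, hJ⟩ := List.mem_flatMap.1 hJ
        obtain ⟨I, hI, rfl⟩ := List.mem_map.1 hJ
        obtain ⟨e, e1, e2⟩ := o1 o ho
        obtain ⟨v, hv, v1, v2⟩ := h.1 I hI
        exact ⟨_, V_mul _ hp e hv, dn v1 e1, up (by linarith [V_ge _ hv]) v2 e2⟩)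
    rw [e] at s1 s2
    refine ⟨s1, fun z hz => ?_⟩
    obtain ⟨e, v, hv, rfl⟩ := V_dec _ hp hz
    obtain ⟨o, ho, e1, e2⟩ := o2 e
    obtain ⟨I, hI, v1, v2⟩ := h.2 v hv
    obtain ⟨J, hJ, j1, j2⟩ := s2 _ (List.mem_flatMap.2 ⟨o, ho, List.mem_map.2 ⟨I, hI, rfl⟩⟩)
    exact ⟨J, hJ, le_trans (by gcongr) (dn v1 e1),
      (up (by linarith [V_ge _ hv]) v2 e2).trans (by gcongr)⟩
  · simp only [Option.some.injEq] at e
    rw [InO, V_np _ hp, ← e]; exact h

def stI (a b c : ℕ) (L : L2) : Option L2 :=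
  if isP c then fN (rt a b c) fun x =>
    if x ^ b * c ^ a ≤ M ^ b ∧ M ^ b ≤ (x + 1) ^ b * c ^ a ∧ L.all fun I =>
        I.1 * (M ^ (E c + 1) + (x + 1) ^ (E c + 1)) ≤ I.2 * M ^ (E c + 1) then
      fL ((fhi (x + 1) (E c), flo x (E c + 4)) ::
        (List.range (E c)).map fun e => (fhi (x + 1) e, flo x e)) fun O =>
      fL (O.flatMap fun o => L.map fun I => (I.1 * o.1 / M + 1, I.2 * o.2 / M)) fun N =>
        if N.all fun I => I.1 ≤ I.2 then some (merge N) else none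
    else none
  else some L

def InI (r : ℝ) (c : ℕ) (L : L2) : Prop :=
  (∀ I ∈ L, 0 < I.1 ∧ I.1 ≤ I.2 ∧ Icc ((I.1 : ℝ) / M) (I.2 / M) ⊆ closure (V r c)) ∧
    ∀ y ∈ V r c, ∃ I ∈ L, uIcc y ((I.1 : ℝ) / M) ⊆ closure (V r c)

theorem utr {K : Set ℝ} {a b c : ℝ} (h1 : uIcc a b ⊆ K) (h2 : uIcc b c ⊆ K) : uIcc a c ⊆ K :=
  uIcc_subset_uIcc_union_uIcc.trans (union_subset h1 h2)

theorem stI_spec (a b : ℕ) (hb : b ≠ 0) (c : ℕ) (L L' : L2) (hc : c ≤ 10200)
    (h : InI (a / b) (c + 1) L) (e : stI a b c L = some L') : InI (a / b) c L' := by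
  have m := M0
  simp only [stI, fN_eq, fL_eq, isP_iff c hc, List.all_eq_true, decide_eq_true_eq] at e
  split_ifs at e with hp h1 h2
  · simp only [Option.some.injEq] at e
    set x := rt a b c
    obtain ⟨x1, x2⟩ := enc hb hp.pos h1.1 h1.2.1
    have y1 := x_le (r := (a : ℝ) / b) (by positivity) hp.pos
    have sc := @scale (a / b) c hp
    set y := (c : ℝ) ^ (-((a : ℝ) / b)) with hy
    have y0 : 0 ≤ y := by positivity
    set K := closure (V (a / b) c) with hK
    have ch : ∀ I ∈ L, ∀ k, Icc (f y (E c) * (I.1 / M)) (f y (E c + k) * (I.2 / M)) ⊆ K := by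
      rintro I hI k t ⟨t1, t2⟩
      obtain ⟨i1, -, i3⟩ := h.1 I hI
      refine (chain y0 y1 (by positivity) (E c) ?_ k t1 t2).elim fun j hj => sc i3 j hj
      have : ((I.1 * (M ^ (E c + 1) + (x + 1) ^ (E c + 1)) : ℕ) : ℝ) ≤ (I.2 * M ^ (E c + 1) : ℕ) := by
        exact_mod_cast h1.2.2 I hI
      calc _ ≤ (I.1 : ℝ) / M * (1 + (((x + 1 : ℕ) : ℝ) / M) ^ (E c + 1)) := by gcongr
        _ = ((I.1 * (M ^ (E c + 1) + (x + 1) ^ (E c + 1)) : ℕ) : ℝ) / M ^ (E c + 1) / M := by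
          push_cast; rw [div_pow]; field_simp
        _ ≤ _ := by gcongr; rw [div_le_iff₀ (by positivity)]; exact_mod_cast this
    set O := (fhi (x + 1) (E c), flo x (E c + 4)) ::
      (List.range (E c)).map fun e => (fhi (x + 1) e, flo x e) with hO
    have o1 : ∀ o ∈ O, ∀ I ∈ L, ∃ e e', f y e ≤ o.1 / M ∧ (o.2 : ℝ) / M ≤ f y e' ∧
        Icc (f y e * (I.1 / M)) (f y e' * (I.2 / M)) ⊆ K := by
      intro o ho I hI
      rcases List.mem_cons.1 ho with rfl | ho
      · exact ⟨_, _, le_fhi y0 x2 _, flo_le x1 _, ch I hI 4⟩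
      · obtain ⟨e, -, rfl⟩ := List.mem_map.1 ho
        exact ⟨e, e, le_fhi y0 x2 _, flo_le x1 _, sc (h.1 I hI).2.2 e⟩
    have mem : ∀ o ∈ O, ∀ I ∈ L, (I.1 * o.1 / M + 1, I.2 * o.2 / M) ∈
        O.flatMap fun o => L.map fun I => (I.1 * o.1 / M + 1, I.2 * o.2 / M) :=
      fun o ho I hI => List.mem_flatMap.2 ⟨o, ho, List.mem_map.2 ⟨I, hI, rfl⟩⟩
    obtain ⟨s1, s2⟩ := merge_spec
      (fun I => 0 < I.1 ∧ I.1 ≤ I.2 ∧ Icc ((I.1 : ℝ) / M) (I.2 / M) ⊆ K)
      (by
        rintro I J ⟨i1, i2, i3⟩ ⟨j1, j2, j3⟩ k1 k2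
        refine ⟨by simp [i1, j1], by simp only; omega, fun t ⟨t1, t2⟩ => ?_⟩
        have k1' : (J.1 : ℝ) / M ≤ I.2 / M := by gcongr
        have k2' : (I.1 : ℝ) / M ≤ J.2 / M := by gcongr
        simp only [Nat.cast_min, Nat.cast_max, ← min_div_div_right m.le,
          ← max_div_div_right m.le, min_le_iff, le_max_iff] at t1 t2
        rcases t1 with t1 | t1 <;> rcases t2 with t2 | t2
        · exact i3 ⟨t1, t2⟩
        · by_cases h : t ≤ I.2 / M
          · exact i3 ⟨t1, h⟩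
          · exact j3 ⟨by linarith, t2⟩
        · by_cases h : t ≤ J.2 / M
          · exact j3 ⟨t1, h⟩
          · exact i3 ⟨by linarith, t2⟩
        · exact j3 ⟨t1, t2⟩)
      (O.flatMap fun o => L.map fun I => (I.1 * o.1 / M + 1, I.2 * o.2 / M)) (by
        intro J hJ
        refine ⟨?_, h2 J hJ, ?_⟩ <;> obtain ⟨o, ho, hJ⟩ := List.mem_flatMap.1 hJ <;>
          obtain ⟨I, hI, rfl⟩ := List.mem_map.1 hJ
        · simp
        · obtain ⟨e, e', e1, e2, e3⟩ := o1 o ho I hI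
          exact (Icc_subset_Icc (up (by positivity) le_rfl e1) (dn le_rfl e2)).trans e3)
    rw [e] at s1 s2
    refine ⟨s1, fun z hz => ?_⟩
    obtain ⟨e, v, hv, rfl⟩ := V_dec _ hp hz
    obtain ⟨I, hI, i0⟩ := h.2 v hv
    obtain ⟨i1, i2, i3⟩ := h.1 I hI
    have i2' : (I.1 : ℝ) / M ≤ I.2 / M := by gcongr
    have fp : ∀ e, 0 ≤ f y e := fun e => by linarith [one_le_f y0 e]
    have A : uIcc (f y e * v) (f y e * (I.1 / M)) ⊆ K := by
      have := sc i0 e
      rwa [mul_min_of_nonneg _ _ (fp e), mul_max_of_nonneg _ _ (fp e)] at this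
    have B : ∃ o ∈ O, ∃ e0 e', f y e0 ≤ o.1 / M ∧ (o.2 : ℝ) / M ≤ f y e' ∧
        Icc (f y e0 * (I.1 / M)) (f y e' * (I.2 / M)) ⊆ K ∧
        uIcc (f y e * (I.1 / M)) (f y e0 * (I.1 / M)) ⊆ K := by
      by_cases he : e < E c
      · refine ⟨_, List.mem_cons_of_mem _ (List.mem_map.2 ⟨e, List.mem_range.2 he, rfl⟩), e, e,
          le_fhi y0 x2 _, flo_le x1 _, sc i3 e, ?_⟩
        exact (uIcc_subset_Icc ⟨le_rfl, by gcongr; exact fp e⟩
          ⟨le_rfl, by gcongr; exact fp e⟩).trans (sc i3 e)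
      · refine ⟨_, List.mem_cons_self, _, _, le_fhi y0 x2 _, flo_le x1 _, ch I hI 4, ?_⟩
        obtain ⟨k, rfl⟩ := Nat.exists_eq_add_of_le (not_lt.1 he)
        have mo := f_mono y0 (Nat.le_add_right (E c) k)
        exact (uIcc_subset_Icc ⟨by gcongr, by gcongr; exact fp _⟩
          ⟨le_rfl, by gcongr; exact fp _⟩).trans (ch I hI k)
    obtain ⟨o, ho, e0, e', b1, b2, b3, b4⟩ := B
    obtain ⟨J, hJ, j1, j2⟩ := s2 _ (mem o ho I hI)
    have n1 := h2 _ (mem o ho I hI)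
    have u1 := up (u := I.1) (by positivity) le_rfl b1
    have u2 := dn (u := I.2) le_rfl b2
    simp only at j1 j2 n1
    have n2 : ((I.1 * o.1 / M + 1 : ℕ) : ℝ) / M ≤ ((I.2 * o.2 / M : ℕ) : ℝ) / M := by gcongr
    refine ⟨J, hJ, utr (utr (utr A b4) ((uIcc_subset_Icc ⟨le_rfl, by linarith⟩
      ⟨u1, by linarith⟩).trans b3)) ((uIcc_subset_Icc ⟨by gcongr, n2.trans (by gcongr)⟩
        ⟨le_rfl, by gcongr; exact (s1 J hJ).2.1⟩).trans (s1 J hJ).2.2)⟩
  · simp only [Option.some.injEq] at e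
    rw [InI, V_np _ hp, ← e]; exact h

def pw : L2 → Bool
  | [] => true
  | I :: L => L.all (fun J => I.2 < J.1) && pw L

theorem pw_spec (L : L2) (h : pw L = true) : L.Pairwise fun I J => I.2 < J.1 := by
  induction L with
  | nil => simp
  | cons I L ih =>
    simp only [pw, Bool.and_eq_true, List.all_eq_true, decide_eq_true_eq] at h
    exact List.Pairwise.cons h.1 (ih h.2)

def okO : Option L2 → Bool
  | none => false
  | some L => pw L && L.length == 253

def okI : Option L2 → Bool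
  | none => false
  | some L => L.length == 252

theorem cO : okO (run (stO 56 13) 499 [(M, M + (M / 500 ^ 3 + 1))]) = true := by decide +kernel

theorem cI : okI (run (stI 13 3) 9999 [(M, M + 2 * 4641588833612)]) = true := by decide +kernel

theorem low : (253 : ℕ∞) ≤ ENat.card (ConnectedComponents (closure (V (56 / 13) 2))) := by
  have m := M0
  have h := cO
  cases e : run (stO 56 13) 499 [(M, M + (M / 500 ^ 3 + 1))] with
  | none => rw [e] at h; simp [okO] at h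
  | some L =>
    rw [e] at h
    simp only [okO, Bool.and_eq_true, beq_iff_eq] at h
    have k := run_spec (stO 56 13) (InO ((56 : ℕ) / (13 : ℕ))) (stO_spec 56 13 (by norm_num))
      499 _ L (by norm_num) ⟨fun I hI => ⟨1, one_mem _ _, by
        simp only [List.mem_singleton] at hI; subst hI; norm_num [M]⟩, fun y hy =>
        ⟨_, List.mem_singleton_self _, by simpa [m.ne'] using V_ge _ hy,
          (V_le (c := 500) (by norm_num) (by norm_num) hy).trans (by norm_num [M])⟩⟩ e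
    have pw := List.pairwise_iff_get.1 (pw_spec L h.1)
    have := lower (V ((56 : ℕ) / (13 : ℕ)) 2) L.length M m (fun i => (L.get i).1)
      (fun i => (L.get i).2) pw (fun i => k.1 _ (List.get_mem _ _)) fun y hy => by
        obtain ⟨I, hI, h⟩ := k.2 y hy
        obtain ⟨i, rfl⟩ := List.get_of_mem hI
        exact ⟨i, h⟩
    rw [h.2] at this
    exact_mod_cast this

theorem upp : ENat.card (ConnectedComponents (closure (V (13 / 3) 2))) ≤ 252 := by
  have m := M0
  have h := cI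
  cases e : run (stI 13 3) 9999 [(M, M + 2 * 4641588833612)] with
  | none => rw [e] at h; simp [okI] at h
  | some L =>
    rw [e] at h
    simp only [okI, beq_iff_eq] at h
    have b := fun y => base (s := (13 : ℕ) / (3 : ℕ)) (y := y) (by norm_num) (by norm_num) 10001
      (by norm_num)
    have k := run_spec (stI 13 3) (InI ((13 : ℕ) / (3 : ℕ))) (stI_spec 13 3 (by norm_num))
      9999 _ L (by norm_num) ⟨fun I hI => by
        simp only [List.mem_singleton] at hI; subst hI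
        obtain ⟨z, hz, z2⟩ := big (s := (13 : ℕ) / (3 : ℕ)) (by norm_num) (by norm_num) 10000 le_rfl
        have := (enc (a := 13) (b := 3) (c := 10000) (x := 4641588833612) (by norm_num)
          (by norm_num) (by norm_num [M]) (by norm_num [M])).1
        refine ⟨by norm_num [M], by simp, (Icc_subset_Icc (by simp [m.ne']) ?_).trans (b z hz)⟩
        simp only [Nat.cast_add, Nat.cast_mul, add_div, div_self m.ne', mul_div_assoc]
        push_cast at this z2 ⊢
        linarith, fun y hy => ⟨_, List.mem_singleton_self _, by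
          simp only [div_self m.ne']
          rw [uIcc_of_ge (V_ge _ hy)]
          exact b y hy⟩⟩ e
    have := upper (V ((13 : ℕ) / (3 : ℕ)) 2) L.length (fun i => ((L.get i).1 : ℝ) / M)
      (fun i => by
        obtain ⟨-, h1, h2⟩ := k.1 _ (List.get_mem L i)
        exact h2 ⟨le_rfl, by gcongr⟩) fun y hy => by
        obtain ⟨I, hI, h⟩ := k.2 y hy
        obtain ⟨i, rfl⟩ := List.get_of_mem hI
        exact ⟨i, h⟩
    rw [h] at this
    exact_mod_cast this

end Pool.Agent.H.MP_9329f2_nt
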